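import Mathlib

/-!
# Definitions: the relation of the problem, approachability, bounded normal colourings
-/

namespace Pool.Agent.Lib_MP_38e082_ap

open Cardinal Set Order

/-- the relation `(kap, eta, theta) → iota` of the problem, for set mappings `f` with
`|f x| < kap` -/
def Arrow (kap eta theta iota : Cardinal.{0}) : Prop :=
  ∀ (S : Type) (f : S → Set S), #S = kap → (∀ x, x ∉ f x) → (∀ x, #(f x) < kap) →
    (∀ X : Set S, #X = eta → #(⋂ x ∈ X, f x : Set S) < theta) →
    ∃ H : Set S, #H = iota ∧ ∀ x ∈ H, ∀ y ∈ H, x ≠ y → y ∉ f x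

/-- almost all points of cofinality `mu⁺` of the well-order `S` are approachable: there are a
sequence `a` of subsets of `S` and a closed unbounded `E ⊆ S` such that every `δ ∈ E` of cofinality
`mu⁺` has a cofinal subset `A`, with proper initial segments of size at most `mu`, each of which
occurs in the sequence `a` before `δ` -/
def Approachable (mu : Cardinal.{0}) (S : Type) [LinearOrder S] : Prop :=
  ∃ (a : S → Set S) (E : Set S), IsClub E ∧ ∀ δ ∈ E, Order.cof (Iio δ) = succ mu →
    ∃ A ⊆ Iio δ, (∀ β < δ, ∃ γ ∈ A, β < γ) ∧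
      ∀ β < δ, #(A ∩ Iio β : Set S) ≤ mu ∧ ∃ α < δ, a α = A ∩ Iio β

/-- a normal colouring `d` of the pairs `y < x` of `S` with `mu` colours (`fewer than lam` points
`y < x` have `d y x ≤ i`), such that every set of size `mu⁺` has a subset of size `mu⁺` on which
`d` is bounded -/
def BoundedColouring (lam mu : Cardinal.{0}) (S : Type) [LinearOrder S] : Prop :=
  ∃ d : S → S → mu.ord.ToType, (∀ x i, #{y | y < x ∧ d y x ≤ i} < lam) ∧
    ∀ B : Set S, #B = succ mu → ∃ B' ⊆ B, #B' = succ mu ∧
      ∃ i, ∀ x ∈ B', ∀ y ∈ B', y < x → d y x ≤ i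

end Pool.Agent.Lib_MP_38e082_ap
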