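import Pool.Agent.Lib_MP_38e082_ap.Core
import Pool.Agent.Lib_MP_38e082_ap.Defs

/-!
# Approachability gives bounded normal colourings
-/

namespace Pool.Agent.Lib_MP_38e082_ap

open Cardinal Set Order

section
variable {S : Type} [LinearOrder S] [WellFoundedLT S] {lam mu : Cardinal.{0}}

omit [LinearOrder S] [WellFoundedLT S] in
theorem union_le {I : Type} {c : Cardinal.{0}} (hc : ℵ₀ ≤ c) (hI : #I ≤ c) (A : I → Set S)
    (hA : ∀ i, #(A i) ≤ c) : #(⋃ i, A i : Set S) ≤ c := by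
  refine (mk_iUnion_le A).trans ?_
  refine (mul_le_mul' hI (ciSup_le' hA)).trans ?_
  exact (mul_eq_self hc).le

/-- the part of `B` of order type `mu⁺` and its supremum -/
theorem exists_sup (hmu : ℵ₀ ≤ mu) (hml : succ mu ≤ lam) (hl : ℵ₀ ≤ lam)
    (hS : #S = succ lam) (hIio : ∀ x : S, #(Iio x) ≤ lam) (B : Set S) (hB : #B = succ mu) :
    ∃ B0 ⊆ B, ∃ δ : S, #B0 = succ mu ∧ (∀ b ∈ B0, b < δ) ∧ (∀ β < δ, ∃ b ∈ B0, β < b) ∧
      (∀ C ⊆ Iio δ, #C ≤ mu → ∃ β < δ, ∀ c ∈ C, c < β) ∧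
      (∀ β < δ, #{b | b ∈ B0 ∧ b ≤ β} ≤ mu) := by
  classical
  let B0 : Set S := {b | b ∈ B ∧ #(B ∩ Iio b : Set S) ≤ mu}
  have hB0 : #B0 = succ mu := by
    refine le_antisymm ((mk_le_mk_of_subset fun b hb => hb.1).trans hB.le) ?_
    by_contra hcon
    rw [not_le, lt_succ_iff] at hcon
    have hne : (B \ B0).Nonempty := by
      by_contra h
      rw [not_nonempty_iff_eq_empty, sdiff_eq_empty] at h
      have := (mk_le_mk_of_subset h).trans hcon
      rw [hB] at this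
      exact absurd (lt_succ mu) (not_lt.2 this)
    let b := wellFounded_lt.min (B \ B0) hne
    have hb : b ∈ B \ B0 := wellFounded_lt.min_mem _ hne
    apply hb.2
    refine ⟨hb.1, (mk_le_mk_of_subset ?_).trans hcon⟩
    rintro x ⟨hx1, hx2⟩
    by_contra hx3
    exact wellFounded_lt.not_lt_min (B \ B0) ⟨hx1, hx3⟩ hx2
  have hmul : mu * mu = mu := mul_eq_self hmu
  -- boundedness
  have hbdd : ∃ x : S, ∀ b ∈ B0, b < x := by
    by_contra hno
    push Not at hno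
    have h1 : (Set.univ : Set S) ⊆ ⋃ b : B0, Iic b.1 := fun x _ => by
      obtain ⟨b, hb, hx⟩ := hno x
      exact mem_iUnion.2 ⟨⟨b, hb⟩, hx⟩
    have h2 : #(Set.univ : Set S) ≤ lam := by
      refine (mk_le_mk_of_subset h1).trans
        (union_le hl (hB0.le.trans hml) (fun b : B0 => Iic b.1) fun b => ?_)
      have h3 : (Iic b.1 : Set S) ⊆ insert b.1 (Iio b.1) := by
        intro x hx
        rcases (mem_Iic.1 hx).lt_or_eq with h | h
        · exact Or.inr h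
        · exact Or.inl h
      refine (mk_le_mk_of_subset h3).trans (mk_insert_le.trans ?_)
      exact add_le_of_le hl (hIio _) (one_le_aleph0.trans hl)
    rw [mk_univ, hS] at h2
    exact absurd (lt_succ lam) (not_lt.2 h2)
  let δ := wellFounded_lt.min {x : S | ∀ b ∈ B0, b < x} hbdd
  have hδ : ∀ b ∈ B0, b < δ := wellFounded_lt.min_mem {x : S | ∀ b ∈ B0, b < x} hbdd
  have hδ2 : ∀ β < δ, ∃ b ∈ B0, β ≤ b := by
    intro β hβ
    by_contra hno
    push Not at hno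
    exact wellFounded_lt.not_lt_min {x : S | ∀ b ∈ B0, b < x} hno hβ
  have hnomax : ∀ b ∈ B0, ∃ b' ∈ B0, b < b' := by
    intro b hb
    by_contra hno
    push Not at hno
    have h1 : B0 ⊆ insert b (B ∩ Iio b) := by
      intro x hx
      rcases (hno x hx).lt_or_eq with h | h
      · exact Or.inr ⟨hx.1, h⟩
      · exact Or.inl h
    have h2 : #B0 ≤ mu := by
      refine (mk_le_mk_of_subset h1).trans (mk_insert_le.trans ?_)
      exact add_le_of_le hmu hb.2 (one_le_aleph0.trans hmu)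
    rw [hB0] at h2
    exact absurd (lt_succ mu) (not_lt.2 h2)
  have hδ3 : ∀ β < δ, ∃ b ∈ B0, β < b := by
    intro β hβ
    obtain ⟨b, hb, h1⟩ := hδ2 β hβ
    obtain ⟨b', hb', h2⟩ := hnomax b hb
    exact ⟨b', hb', h1.trans_lt h2⟩
  have hseg : ∀ β < δ, #{b | b ∈ B0 ∧ b ≤ β} ≤ mu := by
    intro β hβ
    obtain ⟨b, hb, h1⟩ := hδ3 β hβ
    refine (mk_le_mk_of_subset ?_).trans hb.2
    rintro x ⟨hx1, hx2⟩
    exact ⟨hx1.1, hx2.trans_lt h1⟩
  refine ⟨B0, fun b hb => hb.1, δ, hB0, hδ, hδ3, ?_, hseg⟩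
  intro C hC hCm
  by_contra hno
  push Not at hno
  have h1 : B0 ⊆ ⋃ c : C, {b | b ∈ B0 ∧ b ≤ c.1} := by
    intro b hb
    obtain ⟨c, hc, hbc⟩ := hno b (hδ b hb)
    exact mem_iUnion.2 ⟨⟨c, hc⟩, hb, hbc⟩
  have h2 : #B0 ≤ mu := by
    exact (mk_le_mk_of_subset h1).trans
      (union_le hmu hCm (fun c : C => {b | b ∈ B0 ∧ b ≤ c.1}) fun c => hseg c.1 (hC c.2))
  rw [hB0] at h2
  exact absurd (lt_succ mu) (not_lt.2 h2)

omit [WellFoundedLT S] in
/-- the cofinality of the supremum -/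
theorem cof_sup {B0 : Set S} {δ : S} (hB0 : #B0 = succ mu) (h1 : ∀ b ∈ B0, b < δ)
    (h2 : ∀ β < δ, ∃ b ∈ B0, β < b) (h3 : ∀ C ⊆ Iio δ, #C ≤ mu → ∃ β < δ, ∀ c ∈ C, c < β) :
    Order.cof (Iio δ) = succ mu := by
  classical
  refine le_antisymm ?_ ?_
  · have h4 : IsCofinal (Subtype.val ⁻¹' B0 : Set (Iio δ)) := by
      intro x
      obtain ⟨b, hb, hxb⟩ := h2 x.1 x.2
      exact ⟨⟨b, h1 b hb⟩, hb, hxb.le⟩
    refine (Order.cof_le h4).trans ?_
    rw [← hB0]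
    refine mk_le_of_injective (f := fun x : (Subtype.val ⁻¹' B0 : Set (Iio δ)) =>
      (⟨x.1.1, x.2⟩ : B0)) fun x y hxy => ?_
    have h5 : x.1.1 = y.1.1 := congrArg (fun z : B0 => (z : S)) hxy
    exact Subtype.ext (Subtype.ext h5)
  · rw [Order.le_cof_iff]
    intro s hs
    by_contra hcon
    rw [not_le, lt_succ_iff] at hcon
    obtain ⟨β, hβ, hc⟩ := h3 (Subtype.val '' s) (by rintro _ ⟨x, _, rfl⟩; exact x.2)
      (mk_image_le.trans hcon)
    obtain ⟨x, hx, hxb⟩ := hs ⟨β, hβ⟩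
    exact absurd (hc x.1 ⟨x, hx, rfl⟩) (not_lt.2 hxb)

/-- recursive choice -/
theorem exists_rec {I T : Type} [LinearOrder I] [WellFoundedLT I] (P : T → Prop)
    (Q : ∀ ξ : I, (∀ η, η < ξ → T) → T → Prop)
    (h : ∀ ξ (g : ∀ η, η < ξ → T), (∀ η hη, P (g η hη)) → ∃ t, P t ∧ Q ξ g t) :
    ∃ b : I → T, ∀ ξ, P (b ξ) ∧ Q ξ (fun η _ => b η) (b ξ) := by
  classical
  rcases isEmpty_or_nonempty I with hI | ⟨⟨ξ0⟩⟩
  · exact ⟨fun i => (hI.false i).elim, fun i => (hI.false i).elim⟩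
  · have hne : Nonempty T := by
      obtain ⟨m, -, hm⟩ := wellFounded_lt.has_min (Set.univ : Set I) ⟨ξ0, trivial⟩
      obtain ⟨t, _⟩ := h m (fun η hη => (hm η trivial hη).elim)
        fun η hη => (hm η trivial hη).elim
      exact ⟨t⟩
    obtain ⟨t0⟩ := hne
    let b : I → T := WellFoundedLT.fix fun ξ g =>
      if h : ∃ t, P t ∧ Q ξ g t then h.choose else t0
    have hb : ∀ ξ, b ξ = if h : ∃ t, P t ∧ Q ξ (fun η _ => b η) t then h.choose else t0 :=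
      fun ξ => WellFoundedLT.fix_eq _ ξ
    refine ⟨b, fun ξ => ?_⟩
    induction ξ using WellFoundedLT.induction with
    | ind ξ ih =>
      have h1 := h ξ (fun η _ => b η) fun η hη => (ih η hη).1
      have h2 := hb ξ
      rw [dif_pos h1] at h2
      rw [h2]
      exact h1.choose_spec

end

section
variable {S : Type} [LinearOrder S] [WellFoundedLT S] {J : Type} [LinearOrder J] [WellFoundedLT J]
variable {lam mu : Cardinal.{0}}

theorem exists_col (hmu : ℵ₀ ≤ mu) (hml : succ mu ≤ lam) (hl : ℵ₀ ≤ lam)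
    (hS : #S = succ lam) (hIio : ∀ x : S, #(Iio x) ≤ lam)
    (K : J → Cardinal.{0}) (hK : Monotone K) (hK1 : ∀ j, ℵ₀ ≤ K j) (hKm : ∀ j, mu ≤ K j)
    (hK2 : ∀ j, K j < lam) (hK3 : ∀ c < lam, ∃ j, c < K j) (hJ : #J ≤ mu)
    (hap : Approachable mu S) :
    ∃ d : S → S → J, (∀ x i, #{y | y < x ∧ d y x ≤ i} < lam) ∧
      ∀ B : Set S, #B = succ mu → ∃ B' ⊆ B, #B' = succ mu ∧
        ∃ i, ∀ x ∈ B', ∀ y ∈ B', y < x → d y x ≤ i := by
  classical
  obtain ⟨a, E, hE, hap⟩ := hap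
  have hex : ∀ x : S, ∃ e : S → Ordinal.{0}, (∀ t ∈ Iio x, e t < lam.ord) ∧ InjOn e (Iio x) :=
    fun x => exists_rank (Iio x) (hIio x)
  choose e he1 he2 using hex
  have hE1 : ∀ y : S, ∃ z ∈ E, y < z := by
    intro y
    have h1 : ∃ w : S, y < w := by
      by_contra hno
      push Not at hno
      have h2 : (Set.univ : Set S) ⊆ insert y (Iio y) := by
        intro x _
        rcases (hno x).lt_or_eq with h | h
        · exact Or.inr h
        · exact Or.inl h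
      have h3 : #(Set.univ : Set S) ≤ lam := by
        refine (mk_le_mk_of_subset h2).trans (mk_insert_le.trans ?_)
        exact add_le_of_le hl (hIio _) (one_le_aleph0.trans hl)
      rw [mk_univ, hS] at h3
      exact absurd (lt_succ lam) (not_lt.2 h3)
    obtain ⟨w, hw⟩ := h1
    obtain ⟨z, hz, hwz⟩ := hE.isCofinal w
    exact ⟨z, hz, hw.trans_le hwz⟩
  let nx : S → S := fun y => wellFounded_lt.min {z | z ∈ E ∧ y < z} (hE1 y)
  have hnx : ∀ y, nx y ∈ E ∧ y < nx y := fun y =>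
    wellFounded_lt.min_mem {z | z ∈ E ∧ y < z} (hE1 y)
  have hnx2 : ∀ y z, z ∈ E → y < z → nx y ≤ z := fun y z hz hyz =>
    not_lt.1 (wellFounded_lt.not_lt_min {z | z ∈ E ∧ y < z} ⟨hz, hyz⟩)
  let D : J → S → Set S := fun i x => {y | y < x ∧ (e x y < (K i).ord ∨
    (∃ α, α < x ∧ e x α < (K i).ord ∧ #(a α) ≤ mu ∧ ∃ c ∈ a α, y < c ∧ e c y < (K i).ord) ∨
    (nx y = nx x ∧ e (nx x) y < (K i).ord))}
  have hDmono : ∀ i i' x, i ≤ i' → D i x ⊆ D i' x := by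
    intro i i' x hii y hy
    have h1 : (K i).ord ≤ (K i').ord := ord_le_ord.2 (hK hii)
    refine ⟨hy.1, ?_⟩
    rcases hy.2 with h | ⟨α, h2, h3, h4, c, h5, h6, h7⟩ | ⟨h2, h3⟩
    · exact Or.inl (h.trans_le h1)
    · exact Or.inr (Or.inl ⟨α, h2, h3.trans_le h1, h4, c, h5, h6, h7.trans_le h1⟩)
    · exact Or.inr (Or.inr ⟨h2, h3.trans_le h1⟩)
  have hDcov : ∀ y x, y < x → ∃ i, e x y < (K i).ord := by
    intro y x hyx
    obtain ⟨i, hi⟩ := hK3 (e x y).card (lt_ord.1 (he1 x y hyx))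
    exact ⟨i, lt_ord.2 hi⟩
  have hseg : ∀ i x, #{y | y < x ∧ e x y < (K i).ord} ≤ K i := fun i x =>
    card_le_of_rank (e := e x) (fun y hy z hz h => he2 x hy.1 hz.1 h) fun y hy => hy.2
  have hDcard : ∀ i x, #(D i x) ≤ K i := by
    intro i x
    have h1 : D i x ⊆ {y | y < x ∧ e x y < (K i).ord} ∪
        ((⋃ α : {α | α < x ∧ e x α < (K i).ord ∧ #(a α) ≤ mu}, ⋃ c : a α.1,
          {y | y < c.1 ∧ e c.1 y < (K i).ord}) ∪ {y | y < nx x ∧ e (nx x) y < (K i).ord}) := by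
      rintro y ⟨hy, h | ⟨α, h2, h3, h4, c, h5, h6, h7⟩ | ⟨h2, h3⟩⟩
      · exact Or.inl ⟨hy, h⟩
      · exact Or.inr (Or.inl (mem_iUnion.2 ⟨⟨α, h2, h3, h4⟩, mem_iUnion.2 ⟨⟨c, h5⟩, h6, h7⟩⟩))
      · exact Or.inr (Or.inr ⟨hy.trans (hnx x).2, h3⟩)
    refine (mk_le_mk_of_subset h1).trans ((mk_union_le _ _).trans ?_)
    refine add_le_of_le (hK1 i) (hseg i x) ((mk_union_le _ _).trans ?_)
    refine add_le_of_le (hK1 i) ?_ (hseg i _)
    have h2 : #({α | α < x ∧ e x α < (K i).ord ∧ #(a α) ≤ mu} : Set S) ≤ K i := by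
      refine (mk_le_mk_of_subset ?_).trans (hseg i x)
      rintro α ⟨hα, hα', _⟩
      exact ⟨hα, hα'⟩
    refine union_le (hK1 i) h2 (fun α : ({α | α < x ∧ e x α < (K i).ord ∧ #(a α) ≤ mu} : Set S) =>
      ⋃ c : a α.1, {y | y < c.1 ∧ e c.1 y < (K i).ord}) fun α => ?_
    exact union_le (hK1 i) (α.2.2.2.trans (hKm i))
      (fun c : a α.1 => {y | y < c.1 ∧ e c.1 y < (K i).ord}) fun c => hseg i c.1
  obtain ⟨x0⟩ : Nonempty S := by
    rw [← mk_ne_zero_iff, hS]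
    exact (lt_of_le_of_lt zero_le (lt_succ lam)).ne'
  obtain ⟨j0, _⟩ := hK3 0 (aleph0_pos.trans_le hl)
  let d : S → S → J := fun y x => if h : ∃ i, y ∈ D i x then
    wellFounded_lt.min {i | y ∈ D i x} h else j0
  have hd1 : ∀ y x i, y ∈ D i x → d y x ≤ i := by
    intro y x i h
    have h1 : ∃ i, y ∈ D i x := ⟨i, h⟩
    simp only [d, dif_pos h1]
    exact not_lt.1 (wellFounded_lt.not_lt_min {i | y ∈ D i x} h)
  have hd2 : ∀ y x i, y < x → d y x ≤ i → y ∈ D i x := by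
    intro y x i hyx h
    obtain ⟨i', hi'⟩ := hDcov y x hyx
    have h1 : ∃ i, y ∈ D i x := ⟨i', hyx, Or.inl hi'⟩
    simp only [d, dif_pos h1] at h
    exact hDmono _ _ x h (wellFounded_lt.min_mem {i | y ∈ D i x} h1)
  refine ⟨d, fun x i => ?_, ?_⟩
  · refine (mk_le_mk_of_subset ?_).trans_lt ((hDcard i x).trans_lt (hK2 i))
    rintro y ⟨h1, h2⟩
    exact hd2 y x i h1 h2
  intro B hB
  obtain ⟨B0, hB0B, δ, hB0, hδ1, hδ2, hδ3, hδ4⟩ := exists_sup hmu hml hl hS hIio B hB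
  have hcof := cof_sup hB0 hδ1 hδ2 hδ3
  have hreg : #J < (succ mu).ord.cof := by
    rw [(isRegular_succ hmu).cof_ord]
    exact hJ.trans_lt (lt_succ mu)
  have hsm : ℵ₀ ≤ succ mu := hmu.trans (le_succ mu)
  by_cases hδE : δ ∈ E
  · obtain ⟨A, hA1, hA2, hA3⟩ := hap δ hδE hcof
    have hac : ∀ b, ∃ c, b < δ → c ∈ A ∧ b < c := by
      intro b
      by_cases hb : b < δ
      · obtain ⟨c, hc, hbc⟩ := hA2 b hb
        exact ⟨c, fun _ => ⟨hc, hbc⟩⟩
      · exact ⟨b, fun h => absurd h hb⟩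
    choose ac hac using hac
    let I : Type := (succ mu).ord.ToType
    have hI : #I = succ mu := mk_ord_toType _
    have hIi : ∀ ξ : I, #(Iio ξ) ≤ mu := fun ξ => by
      have := mk_Iio_lt ξ (by simp [I])
      rw [hI] at this
      exact lt_succ_iff.1 this
    obtain ⟨b, hb⟩ := exists_rec (I := I) (T := S) (fun t => t ∈ B0)
      (fun ξ g t => ∃ β α, (∀ η hη, g η hη < β ∧ ac (g η hη) < β) ∧ β < δ ∧ β < t ∧ α < t ∧
        a α = A ∩ Iio β) (by
        intro ξ g hg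
        let C : Set S := (range fun η : Iio ξ => g η.1 η.2) ∪
          range fun η : Iio ξ => ac (g η.1 η.2)
        have hC1 : C ⊆ Iio δ := by
          rintro x (⟨η, rfl⟩ | ⟨η, rfl⟩)
          · exact hδ1 _ (hg _ _)
          · exact hA1 (hac _ (hδ1 _ (hg _ _))).1
        have hC2 : #C ≤ mu := by
          refine (mk_union_le _ _).trans (add_le_of_le hmu ?_ ?_)
          · exact mk_range_le.trans (hIi ξ)
          · exact mk_range_le.trans (hIi ξ)
        obtain ⟨β, hβ, hβC⟩ := hδ3 C hC1 hC2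
        obtain ⟨_, α, hα, haα⟩ := hA3 β hβ
        obtain ⟨t, ht, hmt⟩ := hδ2 (max α β) (max_lt hα hβ)
        exact ⟨t, ht, β, α, fun η hη => ⟨hβC _ (Or.inl ⟨⟨η, hη⟩, rfl⟩),
          hβC _ (Or.inr ⟨⟨η, hη⟩, rfl⟩)⟩, hβ, (le_max_right _ _).trans_lt hmt,
          (le_max_left _ _).trans_lt hmt, haα⟩)
    choose hbB β α hβ1 hβ2 hβ3 hα1 hα2 using hb
    have hmono : ∀ η ξ, η < ξ → b η < b ξ := fun η ξ h => (hβ1 ξ η h).1.trans (hβ3 ξ)
    have hinj : Function.Injective b := by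
      intro η ξ h
      rcases lt_trichotomy η ξ with h1 | h1 | h1
      · exact absurd h (hmono _ _ h1).ne
      · exact h1
      · exact absurd h (hmono _ _ h1).ne'
    have hi1 : ∀ ξ, ∃ i, e (ac (b ξ)) (b ξ) < (K i).ord := fun ξ =>
      hDcov _ _ (hac _ (hδ1 _ (hbB ξ))).2
    have hi2 : ∀ ξ, ∃ i, e (b ξ) (α ξ) < (K i).ord := fun ξ => hDcov _ _ (hα1 ξ)
    choose i1 hi1 using hi1
    choose i2 hi2 using hi2
    obtain ⟨i, hi⟩ := infinite_pigeonhole_card (fun ξ => max (i1 ξ) (i2 ξ)) (succ mu)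
      (by rw [hI]) hsm hreg
    refine ⟨b '' ((fun ξ => max (i1 ξ) (i2 ξ)) ⁻¹' {i}), ?_, ?_, i, ?_⟩
    · rintro _ ⟨ξ, _, rfl⟩
      exact hB0B (hbB ξ)
    · rw [mk_image_eq hinj]
      refine le_antisymm ?_ hi
      rw [← hI]
      exact mk_set_le _
    · rintro _ ⟨ξ, hξ, rfl⟩ _ ⟨η, hη, rfl⟩ hlt
      have hηξ : η < ξ := by
        by_contra h
        rcases (not_lt.1 h).lt_or_eq with h1 | h1
        · exact absurd hlt (hmono _ _ h1).asymm
        · rw [h1] at hlt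
          exact absurd hlt (lt_irrefl _)
      have hξ' : max (i1 ξ) (i2 ξ) = i := hξ
      have hη' : max (i1 η) (i2 η) = i := hη
      refine hd1 _ _ _ ⟨hlt, Or.inr (Or.inl ⟨α ξ, hα1 ξ, ?_, ?_, ac (b η), ?_, ?_, ?_⟩)⟩
      · exact (hi2 ξ).trans_le (ord_le_ord.2 (hK (hξ' ▸ le_max_right _ _)))
      · rw [hα2 ξ]
        exact (hA3 (β ξ) (hβ2 ξ)).1
      · rw [hα2 ξ]
        exact ⟨(hac _ (hδ1 _ (hbB η))).1, (hβ1 ξ η hηξ).2⟩
      · exact (hac _ (hδ1 _ (hbB η))).2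
      · exact (hi1 η).trans_le (ord_le_ord.2 (hK (hη' ▸ le_max_left _ _)))
  · have hβ0 : ∃ β < δ, ∀ γ ∈ E, γ < δ → γ ≤ β := by
      by_contra hno
      push Not at hno
      apply hδE
      have hne : B0.Nonempty := by
        rw [nonempty_iff_ne_empty]
        intro h
        rw [h, mk_eq_zero] at hB0
        exact (lt_of_le_of_lt zero_le (lt_succ mu)).ne hB0
      obtain ⟨b, hb⟩ := hne
      obtain ⟨γ, hγ1, hγ2, _⟩ := hno b (hδ1 b hb)
      refine hE.isLUB_mem (t := E ∩ Iio δ) inter_subset_left ⟨γ, hγ1, hγ2⟩ ⟨?_, ?_⟩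
      · intro x hx
        exact (mem_Iio.1 hx.2).le
      · intro u hu
        by_contra hcon
        rw [not_le] at hcon
        obtain ⟨γ', h1, h2, h3⟩ := hno u hcon
        exact absurd (hu ⟨h1, h2⟩) (not_le.2 h3)
    obtain ⟨β, hβ, hβE⟩ := hβ0
    have hnb : ∀ b ∈ B0, β < b → nx b = nx β := by
      intro b hb hβb
      have h1 : b < nx β := by
        by_contra hcon
        rw [not_lt] at hcon
        have h2 := hβE (nx β) (hnx β).1 (hcon.trans_lt (hδ1 b hb))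
        exact absurd (hnx β).2 (not_lt.2 h2)
      exact le_antisymm (hnx2 _ _ (hnx β).1 h1) (hnx2 _ _ (hnx b).1 (hβb.trans (hnx b).2))
    let B1 : Set S := {b | b ∈ B0 ∧ β < b}
    have hB1 : #B1 = succ mu := by
      refine le_antisymm ((mk_le_mk_of_subset fun b hb => hb.1).trans hB0.le) ?_
      by_contra hcon
      rw [not_le, lt_succ_iff] at hcon
      have h1 : B0 ⊆ B1 ∪ {b | b ∈ B0 ∧ b ≤ β} := by
        intro b hb
        rcases lt_or_ge β b with h | h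
        · exact Or.inl ⟨hb, h⟩
        · exact Or.inr ⟨hb, h⟩
      have h2 : #B0 ≤ mu := (mk_le_mk_of_subset h1).trans ((mk_union_le _ _).trans
        (add_le_of_le hmu hcon (hδ4 β hβ)))
      rw [hB0] at h2
      exact absurd (lt_succ mu) (not_lt.2 h2)
    have hi : ∀ b : B1, ∃ i, e (nx β) b.1 < (K i).ord := fun b =>
      hDcov _ _ (by rw [← hnb b.1 b.2.1 b.2.2]; exact (hnx b.1).2)
    choose i1 hi1 using hi
    obtain ⟨i, hi⟩ := infinite_pigeonhole_card i1 (succ mu) (by rw [hB1]) hsm hreg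
    refine ⟨Subtype.val '' (i1 ⁻¹' {i}), ?_, ?_, i, ?_⟩
    · rintro _ ⟨b, _, rfl⟩
      exact hB0B b.2.1
    · rw [mk_image_eq Subtype.val_injective]
      refine le_antisymm ?_ hi
      rw [← hB1]
      exact mk_set_le _
    · rintro _ ⟨x, hx, rfl⟩ _ ⟨y, hy, rfl⟩ hlt
      have hy' : i1 y = i := hy
      refine hd1 _ _ _ ⟨hlt, Or.inr (Or.inr ⟨?_, ?_⟩)⟩
      · rw [hnb _ x.2.1 x.2.2, hnb _ y.2.1 y.2.2]
      · rw [hnb _ x.2.1 x.2.2, ← hy']
        exact hi1 y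

end

end Pool.Agent.Lib_MP_38e082_ap
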