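import Mathlib
import Pool.Agent.Lib_MP_38e082_lc.Transversal
import Pool.Agent.Lib_MP_38e082_gen.Tri

/-!
# Bounded normal colourings give set mappings without large free sets

`S` is a well-ordered set of size `lam⁺` with initial segments of size at most `lam`, and `J` is a
linear order whose initial segments have size less than `mu`; `k j < lam` are cofinal in `lam`.
`d` colours the pairs `y < x` of `S` with colours in `J`, it is normal (`{y < x | d y x ≤ i}` has
size less than `lam`) and every subset of size `mu⁺` has a subset of size `mu⁺` on which `d` is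
bounded.
-/

namespace Pool.Agent.Lib_MP_38e082_ap

open Cardinal Set Order

section
variable {lam : Cardinal.{0}} {T : Type}

/-- an injection of a set of size at most `lam` into the ordinals below `lam` -/
theorem exists_rank (A : Set T) (hA : #A ≤ lam) :
    ∃ e : T → Ordinal.{0}, (∀ t ∈ A, e t < lam.ord) ∧ InjOn e A := by
  classical
  rw [← mk_ord_toType lam] at hA
  obtain ⟨g⟩ := hA
  refine ⟨fun t => if h : t ∈ A then (Ordinal.ToType.mk.symm (g ⟨t, h⟩)).1 else 0, ?_, ?_⟩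
  · intro t ht
    simp only [dif_pos ht]
    exact (Ordinal.ToType.mk.symm (g ⟨t, ht⟩)).2
  · intro t ht s hs hts
    simp only [dif_pos ht, dif_pos hs] at hts
    have h1 := Ordinal.ToType.mk.symm.injective (Subtype.ext hts)
    exact congrArg Subtype.val (g.injective h1)

theorem card_le_of_rank {c : Cardinal.{0}} {e : T → Ordinal.{0}} {B : Set T} (hi : InjOn e B)
    (h : ∀ t ∈ B, e t < c.ord) : #B ≤ c := by
  have hc : #(c.ord.ToType) = c := mk_ord_toType c
  rw [← hc]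
  refine mk_le_of_injective (f := fun t : B => Ordinal.ToType.mk ⟨e t.1, h t.1 t.2⟩) ?_
  intro t s hts
  have h1 := Ordinal.ToType.mk.injective hts
  exact Subtype.ext (hi t.2 s.2 (congrArg Subtype.val h1))

/-- enumeration of the sets of size `lam` -/
theorem exists_enum {S : Type} (hl : ℵ₀ ≤ lam) (hS : #S = succ lam) (h2 : 2 ^ lam = succ lam) :
    ∃ Y : S → Set S, ∀ Z : Set S, #Z = lam → ∃ x, Y x = Z := by
  classical
  have h1 : #{Z : Set S // #Z ≤ lam} ≤ #S := by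
    refine (mk_bounded_set_le S lam).trans ?_
    rw [hS, max_eq_left (hl.trans (le_succ lam))]
    nth_rewrite 1 [← h2]
    rw [← power_mul, mul_eq_self hl, h2]
  obtain ⟨g⟩ := h1
  have hne : Nonempty {Z : Set S // #Z ≤ lam} := ⟨⟨∅, by simp⟩⟩
  refine ⟨fun x => (Function.invFun g x).1, fun Z hZ => ⟨g ⟨Z, hZ.le⟩, ?_⟩⟩
  change ((Function.invFun g (g ⟨Z, hZ.le⟩)).1 : Set S) = Z
  rw [Function.leftInverse_invFun g.injective]

end

section
variable {S : Type} [LinearOrder S] [WellFoundedLT S] {J : Type} [LinearOrder J]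
variable {lam mu : Cardinal.{0}}

/-- the properties of the sets `B j` at the point `x` -/
def Spec (lam : Cardinal.{0}) (k : J → Cardinal.{0}) (d : S → S → J) (Y : S → Set S)
    (e : S → S → Ordinal.{0}) (x : S) (prev : ∀ y, y < x → J → Set S) (B : J → Set S) : Prop :=
  ∀ j, #(B j) ≤ k j ∧ (∀ y ∈ B j, y < x ∧ j < d y x) ∧
    (∀ y ∈ B j, ∀ z ∈ B j, ∀ hz : z < x, y ∉ prev z hz j) ∧
    ∀ ξ < x, e x ξ < (k j).ord → lam ≤ #(Y ξ ∩ Iio x : Set S) → ∃ y ∈ B j, y ∈ Y ξ

omit [WellFoundedLT S] in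
theorem exists_spec (hl : ℵ₀ ≤ lam) (hlim : ∀ c < lam, succ c < lam)
    (k : J → Cardinal.{0}) (hk1 : ∀ j, ℵ₀ ≤ k j) (hk2 : ∀ j, k j < lam)
    (d : S → S → J) (hd : ∀ x i, #{y | y < x ∧ d y x ≤ i} < lam)
    (Y : S → Set S) (e : S → S → Ordinal.{0}) (x : S) (he : InjOn (e x) (Iio x))
    (prev : ∀ y, y < x → J → Set S)
    (hp : ∀ y hy j, #(prev y hy j) ≤ k j ∧ prev y hy j ⊆ Iio y) :
    ∃ B, Spec lam k d Y e x prev B := by
  classical
  have key : ∀ j, ∃ B : Set S, #B ≤ k j ∧ (∀ y ∈ B, y < x ∧ j < d y x) ∧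
      (∀ y ∈ B, ∀ z ∈ B, ∀ hz : z < x, y ∉ prev z hz j) ∧
      ∀ ξ < x, e x ξ < (k j).ord → lam ≤ #(Y ξ ∩ Iio x : Set S) → ∃ y ∈ B, y ∈ Y ξ := by
    intro j
    let I : Type := {ξ : S // ξ < x ∧ e x ξ < (k j).ord ∧ lam ≤ #(Y ξ ∩ Iio x : Set S)}
    have hI : #I ≤ k j := by
      have h1 : #({ξ : S | ξ < x ∧ e x ξ < (k j).ord ∧ lam ≤ #(Y ξ ∩ Iio x : Set S)}) ≤ k j := by
        refine card_le_of_rank (e := e x) ?_ ?_
        · intro a ha b hb hab
          exact he ha.1 hb.1 hab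
        · intro t ht
          exact ht.2.1
      exact h1
    let R : S → S → Prop := fun a b => ∃ h : b < x, a ∈ prev b h j
    have irr : ∀ a, ¬ R a a := by
      rintro a ⟨h, h1⟩
      exact lt_irrefl a ((hp a h j).2 h1)
    have hR : ∀ b, #{a // R a b} ≤ k j := by
      intro b
      by_cases hbx : b < x
      · have h1 : #({a | R a b} : Set S) ≤ #(prev b hbx j) := by
          refine mk_le_mk_of_subset ?_
          rintro a ⟨_, h⟩
          exact h
        exact h1.trans (hp b hbx j).1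
      · have h1 : IsEmpty {a // R a b} := ⟨fun a => hbx a.2.1⟩
        rw [mk_eq_zero]
        exact zero_le
    have hY : ∀ i : I, succ (k j) < #({y | y ∈ Y i.1 ∧ y < x ∧ j < d y x} : Set S) := by
      intro i
      by_contra hcon
      rw [not_lt] at hcon
      have h1 : (Y i.1 ∩ Iio x : Set S) ⊆
          {y | y ∈ Y i.1 ∧ y < x ∧ j < d y x} ∪ {y | y < x ∧ d y x ≤ j} := by
        rintro y ⟨hy1, hy2⟩
        rcases lt_or_ge j (d y x) with h | h
        · exact Or.inl ⟨hy1, hy2, h⟩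
        · exact Or.inr ⟨hy2, h⟩
      have h2 : #(Y i.1 ∩ Iio x : Set S) < lam := by
        refine (mk_le_mk_of_subset h1).trans_lt ((mk_union_le _ _).trans_lt ?_)
        exact add_lt_of_lt hl (hcon.trans_lt (hlim _ (hk2 j))) (hd x j)
      exact absurd h2 (not_lt.2 i.2.2.2)
    obtain ⟨h, hh1, hh2⟩ := Pool.Agent.FreeSets.exists_transversal (k j) (hk1 j) hI R irr hR
      (fun i : I => {y | y ∈ Y i.1 ∧ y < x ∧ j < d y x}) hY
    refine ⟨range h, mk_range_le.trans hI, ?_, ?_, ?_⟩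
    · rintro _ ⟨i, rfl⟩
      exact (hh1 i).2
    · rintro _ ⟨i, rfl⟩ _ ⟨i', rfl⟩ hz hmem
      exact hh2 i i' ⟨hz, hmem⟩
    · intro ξ hξ h1 h2
      exact ⟨h ⟨ξ, hξ, h1, h2⟩, ⟨_, rfl⟩, (hh1 ⟨ξ, hξ, h1, h2⟩).1⟩
  choose B hB using key
  exact ⟨B, hB⟩

/-- **the construction** -/
theorem core (hl : ℵ₀ ≤ lam) (hlim : ∀ c < lam, succ c < lam) (hmu : ℵ₀ ≤ mu)
    (hS : #S = succ lam) (hIio : ∀ x : S, #(Iio x) ≤ lam) (h2 : 2 ^ lam = succ lam)
    (k : J → Cardinal.{0}) (hk1 : ∀ j, ℵ₀ ≤ k j) (hk2 : ∀ j, k j < lam)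
    (hk3 : ∀ c < lam, ∃ j, c < k j) (hJ : ∀ j : J, #(Iic j) < mu)
    (hmu2 : ∀ c < mu, (2 : Cardinal.{0}) ^ c ≤ mu)
    (d : S → S → J) (hd : ∀ x i, #{y | y < x ∧ d y x ≤ i} < lam)
    (hb : ∀ B : Set S, #B = succ mu → ∃ B' ⊆ B, #B' = succ mu ∧
      ∃ i, ∀ x ∈ B', ∀ y ∈ B', y < x → d y x ≤ i) :
    ∃ f : S → Set S, (∀ x, f x ⊆ Iio x) ∧
      (∀ X : Set S, #X = succ lam → #(⋂ x ∈ X, f x : Set S) < lam) ∧
      ∀ H : Set S, #H = succ mu → ∃ x ∈ H, ∃ y ∈ H, x ≠ y ∧ y ∈ f x := by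
  classical
  obtain ⟨Y, hY⟩ := exists_enum hl hS h2
  have hex : ∀ x : S, ∃ e : S → Ordinal.{0}, (∀ t ∈ Iio x, e t < lam.ord) ∧ InjOn e (Iio x) :=
    fun x => exists_rank (Iio x) (hIio x)
  choose e he1 he2 using hex
  have hk0 : ∀ j, (0 : Cardinal.{0}) ≤ k j := fun j => zero_le
  let A : S → J → Set S := WellFoundedLT.fix fun x prev =>
    if h : ∃ B, Spec lam k d Y e x prev B then h.choose else fun _ => ∅
  have hA : ∀ x, A x = if h : ∃ B, Spec lam k d Y e x (fun y _ => A y) B then h.choose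
      else fun _ => ∅ := fun x => WellFoundedLT.fix_eq _ x
  have hspec : ∀ x, Spec lam k d Y e x (fun y _ => A y) (A x) := by
    intro x
    induction x using WellFoundedLT.induction with
    | ind x ih =>
      have h := exists_spec hl hlim k hk1 hk2 d hd Y e x (he2 x) (fun y _ => A y)
        (fun y hy j => ⟨(ih y hy j).1, fun z hz => ((ih y hy j).2.1 z hz).1⟩)
      have h3 := hA x
      rw [dif_pos h] at h3
      rw [h3]
      exact h.choose_spec
  refine ⟨fun x => {y | y < x ∧ ∀ j, y ∉ A x j}, fun x y hy => hy.1, ?_, ?_⟩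
  · intro X hX
    by_contra hcon
    rw [not_lt] at hcon
    obtain ⟨Z, hZ1, hZ2⟩ := le_mk_iff_exists_subset.1 hcon
    obtain ⟨ξ, hξ⟩ := hY Z hZ2
    have h3 : ∃ x ∈ X, ξ < x := by
      by_contra hno
      push Not at hno
      have h4 : X ⊆ insert ξ (Iio ξ) := by
        intro x hx
        rcases (hno x hx).lt_or_eq with h | h
        · exact Or.inr h
        · exact Or.inl h
      have h5 : #X ≤ lam := by
        refine (mk_le_mk_of_subset h4).trans (mk_insert_le.trans ?_)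
        exact add_le_of_le hl (hIio ξ) (one_le_aleph0.trans hl)
      rw [hX] at h5
      exact absurd (lt_succ lam) (not_lt.2 h5)
    obtain ⟨x, hx, hξx⟩ := h3
    have h6 : Z ⊆ {y | y < x ∧ ∀ j, y ∉ A x j} := fun z hz => mem_iInter₂.1 (hZ1 hz) x hx
    have h7 : Y ξ ∩ Iio x = Z := by
      rw [hξ]
      exact inter_eq_left.2 fun z hz => (h6 hz).1
    obtain ⟨j, hj⟩ := hk3 (e x ξ).card (lt_ord.1 (he1 x ξ hξx))
    obtain ⟨y, hy1, hy2⟩ := (hspec x j).2.2.2 ξ hξx (lt_ord.2 hj) (by rw [h7, hZ2])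
    rw [hξ] at hy2
    exact (h6 hy2).2 j hy1
  · intro H hH
    by_contra hno
    push Not at hno
    obtain ⟨B, hB1, hB2, i, hB3⟩ := hb H hH
    have hpair : ∀ x ∈ B, ∀ y ∈ B, x < y → ∃ j : Iic i, x ∈ A y j := by
      intro x hx y hy hxy
      have h3 := hno y (hB1 hy) x (hB1 hx) hxy.ne'
      simp only [mem_ofPred_eq, not_and, not_forall, not_not] at h3
      obtain ⟨j, hj⟩ := h3 hxy
      have h4 := ((hspec y j).2.1 x hj).2
      exact ⟨⟨j, (h4.trans_le (hB3 y hy x hx hxy)).le⟩, hj⟩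
    obtain ⟨R, hR⟩ := Pool.Agent.FreeSetsG.exists_code (W := S) (J := Iic i)
      (fun j x y => x ∈ A y j) (by
        intro j x y z h3 h4 h5
        exact (hspec z j).2.2.1 x h5 y h4 ((hspec z j).2.1 y h4).1 h3) B hpair
    have h5 : #B ≤ #(Set (Iic i × Iic i)) :=
      mk_le_of_injective (f := fun b : B => R b.1) (injOn_iff_injective.1 hR)
    have h6 : #(Set (Iic i × Iic i)) ≤ mu := by
      have h7 : #(Iic i × Iic i) = #(Iic i) * #(Iic i) := by simp
      rw [mk_set, h7]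
      exact hmu2 _ (mul_lt_of_lt hmu (hJ i) (hJ i))
    rw [hB2] at h5
    exact absurd (lt_succ mu) (not_lt.2 (h5.trans h6))

end

end Pool.Agent.Lib_MP_38e082_ap
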