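import Pool.Agent.Lib_MP_38e082_ap.Appr

/-!
# The theorem
-/

namespace Pool.Agent.Lib_MP_38e082_ap

open Cardinal Set Order

section
variable {lam : Cardinal.{0}}

theorem lim_of_singular (h0 : ℵ₀ ≤ lam) (hs : lam.ord.cof < lam) : ∀ c < lam, succ c < lam := by
  intro c hc
  rcases (succ_le_of_lt hc).lt_or_eq with h | h
  · exact h
  · exfalso
    rcases lt_or_ge c ℵ₀ with h1 | h1
    · have h2 : succ c < ℵ₀ := by
        obtain ⟨n, rfl⟩ := lt_aleph0.1 h1
        rw [← nat_succ]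
        exact natCast_lt_aleph0
      rw [h] at h2
      exact absurd h0 (not_le.2 h2)
    · have h2 := (isRegular_succ h1).cof_ord
      rw [h] at h2
      exact hs.ne h2

theorem exists_K (h0 : ℵ₀ ≤ lam) (hs : lam.ord.cof < lam) :
    ∃ K : lam.ord.cof.ord.ToType → Cardinal.{0}, Monotone K ∧ (∀ j, ℵ₀ ≤ K j) ∧
      (∀ j, lam.ord.cof ≤ K j) ∧ (∀ j, K j < lam) ∧ ∀ c < lam, ∃ j, c < K j := by
  obtain ⟨s, hs1, hs2⟩ := Ordinal.exists_ord_cof_eq lam.ord.ToType
  rw [Ordinal.cof_toType] at hs2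
  have h1 : Ordinal.type (α := lam.ord.cof.ord.ToType) (· < ·) = Ordinal.type (α := s) (· < ·) := by
    rw [hs2]
    simp
  obtain ⟨f⟩ := Ordinal.type_eq.1 h1
  have hlt : ℵ₀ < lam := by
    rcases h0.lt_or_eq with h | h
    · exact h
    · exfalso
      rw [← h] at hs
      simp at hs
  let r : lam.ord.cof.ord.ToType → Ordinal.{0} := fun j => (Ordinal.ToType.mk.symm (f j).1).1
  have hr : ∀ j, r j < lam.ord := fun j => (Ordinal.ToType.mk.symm (f j).1).2
  refine ⟨fun j => max (max ℵ₀ lam.ord.cof) (succ (r j).card), ?_, ?_, ?_, ?_, ?_⟩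
  · intro i j hij
    refine max_le_max le_rfl (succ_le_succ (Ordinal.card_le_card ?_))
    have h2 : (f i).1 ≤ (f j).1 := by
      rcases hij.lt_or_eq with h | h
      · exact (f.map_rel_iff.2 h : f i < f j).le
      · rw [h]
    exact Ordinal.ToType.mk.symm.monotone h2
  · intro j
    exact (le_max_left _ _).trans (le_max_left _ _)
  · intro j
    exact (le_max_right _ _).trans (le_max_left _ _)
  · intro j
    exact max_lt (max_lt hlt hs) (lim_of_singular h0 hs _ (lt_ord.1 (hr j)))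
  · intro c hc
    obtain ⟨y, hy, hcy⟩ := hs1 (Ordinal.ToType.mk ⟨c.ord, ord_lt_ord.2 hc⟩)
    obtain ⟨j, hj⟩ := f.surjective ⟨y, hy⟩
    refine ⟨j, lt_of_lt_of_le (lt_of_le_of_lt ?_ (lt_succ _)) (le_max_right _ _)⟩
    have h2 : c.ord ≤ r j := by
      have h3 : Ordinal.ToType.mk ⟨c.ord, ord_lt_ord.2 hc⟩ ≤ (f j).1 := by rw [hj]; exact hcy
      have h4 := Ordinal.ToType.mk.symm.monotone h3
      rw [OrderIso.symm_apply_apply] at h4
      exact h4
    calc c = c.ord.card := (card_ord c).symm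
      _ ≤ (r j).card := Ordinal.card_le_card h2

theorem final (h0 : ℵ₀ ≤ lam) (hs : lam.ord.cof < lam) (h2 : 2 ^ lam = succ lam)
    (hmu : ∀ c < lam.ord.cof, (2 : Cardinal.{0}) ^ c ≤ lam.ord.cof)
    (h : Approachable lam.ord.cof (succ lam).ord.ToType ∨
      BoundedColouring lam lam.ord.cof (succ lam).ord.ToType) :
    ∃ f : (succ lam).ord.ToType → Set (succ lam).ord.ToType, (∀ x, f x ⊆ Iio x) ∧
      (∀ X : Set (succ lam).ord.ToType, #X = succ lam →
        #(⋂ x ∈ X, f x : Set (succ lam).ord.ToType) < lam) ∧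
      ∀ H : Set (succ lam).ord.ToType, #H = succ lam.ord.cof →
        ∃ x ∈ H, ∃ y ∈ H, x ≠ y ∧ y ∈ f x := by
  classical
  have hlim := lim_of_singular h0 hs
  have hmu0 : ℵ₀ ≤ lam.ord.cof := Ordinal.aleph0_le_cof.2 (isSuccLimit_ord h0)
  obtain ⟨K, hK, hK1, hKm, hK2, hK3⟩ := exists_K h0 hs
  have hS : #((succ lam).ord.ToType) = succ lam := mk_ord_toType _
  have hIio : ∀ x : (succ lam).ord.ToType, #(Iio x) ≤ lam := fun x => by
    have := mk_Iio_lt x (by simp)
    rw [hS] at this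
    exact lt_succ_iff.1 this
  have hJ : #(lam.ord.cof.ord.ToType) = lam.ord.cof := mk_ord_toType _
  have hJ1 : ∀ j : lam.ord.cof.ord.ToType, #(Iic j) < lam.ord.cof := fun j => by
    have h1 := mk_Iio_lt j (by simp)
    rw [hJ] at h1
    have h3 : (Iic j : Set lam.ord.cof.ord.ToType) ⊆ insert j (Iio j) := by
      intro x hx
      rcases (mem_Iic.1 hx).lt_or_eq with h | h
      · exact Or.inr h
      · exact Or.inl h
    refine (mk_le_mk_of_subset h3).trans_lt (mk_insert_le.trans_lt ?_)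
    exact add_lt_of_lt hmu0 h1 (one_lt_aleph0.trans_le hmu0)
  have hd : BoundedColouring lam lam.ord.cof (succ lam).ord.ToType := by
    rcases h with h | h
    · exact exists_col hmu0 (hlim _ hs).le h0 hS hIio K hK hK1 hKm hK2 hK3 hJ.le h
    · exact h
  obtain ⟨d, hd1, hd2⟩ := hd
  exact core h0 hlim hmu0 hS hIio h2 K hK1 hK2 hK3 hJ1 hmu d hd1 hd2

theorem not_arrow (h0 : ℵ₀ ≤ lam) (hs : lam.ord.cof < lam) (h2 : 2 ^ lam = succ lam)
    (hmu : ∀ c < lam.ord.cof, (2 : Cardinal.{0}) ^ c ≤ lam.ord.cof)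
    (h : Approachable lam.ord.cof (succ lam).ord.ToType ∨
      BoundedColouring lam lam.ord.cof (succ lam).ord.ToType) :
    ¬ Arrow (succ lam) (succ lam) lam (succ lam.ord.cof) := by
  intro hA
  obtain ⟨f, h1, h3, h4⟩ := final h0 hs h2 hmu h
  obtain ⟨H, hH1, hH2⟩ := hA (succ lam).ord.ToType f (mk_ord_toType _)
    (fun x hx => lt_irrefl x (h1 x hx)) (fun x => by
      refine (mk_le_mk_of_subset (h1 x)).trans_lt ?_
      have := mk_Iio_lt x (by simp)
      rwa [mk_ord_toType] at this) h3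
  obtain ⟨x, hx, y, hy, hxy, hyx⟩ := h4 H hH1
  exact hH2 x hx y hy hxy hyx

end

end Pool.Agent.Lib_MP_38e082_ap
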